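import Pool.Agent.H839.CL.Main

/-!
# The categorical local Langlands conjecture: the Whittaker normalisation

`P`, `D`, `I` are the homotopy categories of `QCoh(Par_G)`, `D(Bun_G)` (with the spectral action)
and `IndCoh(Par_G)`; `L : Langlands P D I` lists the Whittaker data `ψ`, the objects
`L.W ψ = i_{1!} W_ψ`, the structure sheaf `L.O`, the linear equivalences `L.good` and the known
formal properties (see `Pool.Agent.H839.CL.Defs`).  `L.Conj ψ` is the statement of Q1 for `ψ`,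
and `L.Unnormalised` says that there is some linear equivalence `D(Bun_G) ≅ IndCoh(Par_G)`.

(1) The following are equivalent: Q1 for all `ψ`; Q1 for one `ψ`; some linear equivalence exists
and the internal Hom conditions `L.Generic` hold for all (for one) `i_{1!} W_ψ`; some linear
equivalence exists and all of them send all `i_{1!} W_ψ` to graded line bundles; some linear
equivalence sends some `i_{1!} W_ψ` to a graded line bundle.

(2) Any two linear equivalences `E`, `E'` differ on compact objects by the tensor product with a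
graded line bundle `V`; if they are normalised for `ψ` and `ψ'` then `V` is the internal Hom from
`i_{1!} W_ψ'` to `i_{1!} W_ψ`.

(3) If there is some linear equivalence then every linear autoequivalence of `D(Bun_G)` is, on
compact objects, the action of a graded line bundle.

The reason is that the image `M` of the structure sheaf under a linear autoequivalence of
`IndCoh(Par_G)` has bounded coherent internal Homs to all coherent objects, so that it is perfect,
and that its internal endomorphisms `M ⊗ M^∨` are the structure sheaf, so that it is invertible.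
-/

namespace Pool.Agent.Results.MP_bf5a8d_nt.WhittakerNormalisation

open CategoryTheory MonoidalCategory MonoidalLeftAction Pool.Agent.H839.CL

universe v u

theorem result {P : Type u} [Category.{v} P] [MonoidalCategory P] [BraidedCategory P]
    {D : Type u} [Category.{v} D] [MonoidalLeftAction P D]
    {I : Type u} [Category.{v} I] [MonoidalLeftAction P I] (L : Langlands P D I) :
    List.TFAE
      [∀ ψ, L.Conj ψ,
       ∃ ψ, L.Conj ψ,
       L.Unnormalised ∧ ∀ ψ, L.Generic (L.W ψ),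
       L.Unnormalised ∧ ∃ ψ, L.Generic (L.W ψ),
       L.Unnormalised ∧ ∀ E, L.good E → ∀ ψ, L.ToLineBundle E (L.W ψ),
       ∃ E, L.good E ∧ ∃ ψ, L.ToLineBundle E (L.W ψ)] ∧
    (∀ E E', L.good E → L.good E' → ∃ V : P, Invertible V ∧
      IsoOn L.cptD E'.fn (E.fn ⋙ act V) ∧
      ∀ ψ ψ', Nonempty (E.fn.obj (L.W ψ) ≅ L.O) → Nonempty (E'.fn.obj (L.W ψ') ≅ L.O) →
        IsHom (L.W ψ') (L.W ψ) V) ∧
    (L.Unnormalised → ∀ T, L.goodD T → ∃ V : P, Invertible V ∧ IsoOn L.cptD T.fn (act V)) := by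
  obtain ⟨ψ₀⟩ := L.nonempty
  have main : ∀ E E', L.good E → L.good E' → ∃ V : P, Invertible V ∧
      IsoOn L.cptD E'.fn (E.fn ⋙ act V) ∧
      ∀ ψ ψ', Nonempty (E.fn.obj (L.W ψ) ≅ L.O) → Nonempty (E'.fn.obj (L.W ψ') ≅ L.O) →
        IsHom (L.W ψ') (L.W ψ) V := by
    intro E E' hE hE'
    have := E.isEquivalence
    obtain ⟨X, ⟨e⟩⟩ := L.exists_pre E
    obtain ⟨V, V', _, ⟨i⟩, ⟨m⟩⟩ := L.line_of_generic X (L.generic_of X E hE e) E' hE'
    refine ⟨V, ⟨V', ⟨i⟩⟩, L.rigid E E' hE hE' X e V V' i m, ?_⟩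
    rintro ψ ψ' ⟨a⟩ ⟨b⟩
    have j : X ≅ L.W ψ := E.fn.preimageIso (e ≪≫ a.symm)
    have h := isHom_O L.full V
    exact isHom_of_map E' (isHom_congr b.symm (m.symm ≪≫ E'.fn.mapIso j) h)
  refine ⟨?_, main, ?_⟩
  · tfae_have 1 → 2 := fun h => ⟨ψ₀, h ψ₀⟩
    tfae_have 2 → 1 := fun ⟨ψ, h⟩ ψ' => L.conj_all ψ h ψ'
    tfae_have 1 → 3 := fun h => by
      obtain ⟨E, hE, _⟩ := h ψ₀
      refine ⟨⟨E, hE⟩, fun ψ => ?_⟩
      obtain ⟨E', hE', ⟨e⟩⟩ := h ψ
      exact L.generic_of _ E' hE' e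
    tfae_have 3 → 4 := fun ⟨h, h'⟩ => ⟨h, ψ₀, h' ψ₀⟩
    tfae_have 3 → 5 := fun ⟨h, h'⟩ => by
      refine ⟨h, fun E hE ψ => ?_⟩
      obtain ⟨V, V', _, i, m⟩ := L.line_of_generic _ (h' ψ) E hE
      exact ⟨V, ⟨V', i⟩, m⟩
    tfae_have 4 → 6 := fun ⟨⟨E, hE⟩, ψ, h⟩ => by
      obtain ⟨V, V', _, i, m⟩ := L.line_of_generic _ h E hE
      exact ⟨E, hE, ψ, V, ⟨V', i⟩, m⟩
    tfae_have 5 → 6 := fun ⟨⟨E, hE⟩, h⟩ => ⟨E, hE, ψ₀, h E hE ψ₀⟩
    tfae_have 6 → 2 := fun ⟨E, hE, ψ, h⟩ => ⟨ψ, L.conj_of_line _ E hE h⟩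
    tfae_finish
  · rintro ⟨E, hE⟩ T hT
    obtain ⟨V, hV, h, _⟩ := main E (T.trans E) hE (L.good_trans T E hT hE)
    exact ⟨V, hV, L.auto E T V h⟩

end Pool.Agent.Results.MP_bf5a8d_nt.WhittakerNormalisation
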